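import Pool.Agent.Run7.h60.PaAff

/-!
# Homotopies in `G = Symp_ct(ℝ²ⁿ)` and continuous maps which are almost affine at small scales

Two compact families `f, g : C → G` are homotopic in `G` if and only if they are homotopic through
compactly supported continuous maps `H_{c,t}` of `ℝ²ⁿ` (not assumed to be differentiable, injective,
or to preserve anything) so that, for arbitrarily small `r > 0`, one of the following holds for all
`c, t` and all points `x`.

* On the ball `B(x, r)` the map `H_{c,t}` is almost affine with conformally symplectic linear part: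
  `H_{c,t}(x + y) = H_{c,t}(x) + L(y + z)` with `‖z‖ ≤ η r` for `‖y‖ ≤ r`, where `L` depends on
  `c, t, x`, there is no bound on `L` and its conformal factor, and `η ≤ η₀(n)`.
* The differential of `H_{c,t}` averaged around `x` at the scale `r` (it is defined for continuous
  maps) never reverses `ω`.

In particular `G` is path connected if and only if every element of `G` can be joined to the
identity by a path of such maps.

Proof. The averaged differentials are the differentials of the maps mollified at the scale `r`. One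
goes from `f` to its mollification at the scale `r`, which is possible in a set of maps whose
differentials never reverse `ω` if `r` is small, then one follows the mollified maps `H_{c,t}`,
then one goes to `g`. A suitable smooth interpolation and Moser's argument (starting library
`Pool.Agent.W5h49.EC`) give the homotopy in `G`.
-/

set_option autoImplicit false

open scoped ContDiff
open Pool.Agent.W71.EC MeasureTheory

namespace Pool.Agent.Results.MP_ec5dc5_gt.AlmostAffinePaths

/-- The map `A` does not reverse `ω` in any direction `v`: there are no `v ≠ 0` and `c ≥ 0` with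
`ω(A v, A w) = - c ω(v, w)` for all `w`. -/
def NoReversal {n : ℕ} (A : R2 n → R2 n) : Prop :=
  ¬ ∃ v : R2 n, v ≠ 0 ∧ ∃ c : ℝ, 0 ≤ c ∧ ∀ w : R2 n, omega (A v) (A w) = -c * omega v w

/-- `ρ` is a smooth probability density with compact support. -/
def IsDensity {n : ℕ} (ρ : R2 n → ℝ) : Prop :=
  ContDiff ℝ ∞ ρ ∧ HasCompactSupport ρ ∧ (∀ y, 0 ≤ ρ y) ∧ ∫ y, ρ y = 1

/-- The derivative of `ρ` at `y` in the direction `v`. -/
noncomputable def dd {n : ℕ} (ρ : R2 n → ℝ) (y v : R2 n) : ℝ := fderiv ℝ ρ y v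

/-- The differential of the continuous map `h` averaged around `x` at the scale `r` with the density
`ρ`, in the direction `v`: the number `r⁻¹ ∫ ∂_v ρ(y) h(x - r y) dy`, which is
`∫ ρ(y) Dh(x - r y) v dy` if `h` is continuously differentiable. -/
noncomputable def avg {n : ℕ} (ρ : R2 n → ℝ) (r : ℝ) (h : R2 n → R2 n) (x v : R2 n) : R2 n :=
  r⁻¹ • ∫ y, dd ρ y v • h (x - r • y)

/-- `l` is linear. -/
def IsLin {n : ℕ} (l : R2 n → R2 n) : Prop :=
  (∀ u v, l (u + v) = l u + l v) ∧ ∀ (a : ℝ) u, l (a • u) = a • l u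

/-- `L` is linear and conformally symplectic (with any positive factor). -/
def IsConf {n : ℕ} (L : R2 n → R2 n) : Prop :=
  IsLin L ∧ ∃ l : ℝ, 0 < l ∧ ∀ u v, omega (L u) (L v) = l * omega u v

/-- On the ball with centre `x` and radius `r` the map `h` is almost affine, with conformally
symplectic linear part. -/
def AlmostAffine {n : ℕ} (η r : ℝ) (h : R2 n → R2 n) (x : R2 n) : Prop :=
  ∃ L : R2 n → R2 n, IsConf L ∧
    ∀ y, ‖y‖ ≤ r → ∃ z, ‖z‖ ≤ η * r ∧ h (x + y) = h x + L (y + z)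

/-- `P r` holds for arbitrarily small `r > 0`. -/
def AtSmallScales (P : ℝ → Prop) : Prop := ∀ δ : ℝ, 0 < δ → ∃ r : ℝ, 0 < r ∧ r < δ ∧ P r

/-- `H` is a homotopy from `f` to `g` through continuous maps of `ℝ²ⁿ` which are the identity
outside a compact set, and it is the identity for the parameters in `A`. -/
def IsDeformation {n : ℕ} {C : Type} [TopologicalSpace C] (f g : C(C, SympCt n)) (A : Set C)
    (H : C × unitInterval × R2 n → R2 n) : Prop :=
  Continuous H ∧ (∃ K, IsCompact K ∧ ∀ c t x, x ∉ K → H (c, t, x) = x) ∧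
    (∀ c x, H (c, 0, x) = (f c).toEquiv x) ∧ (∀ c x, H (c, 1, x) = (g c).toEquiv x) ∧
    ∀ c ∈ A, ∀ t x, H (c, t, x) = x

/-- The criterion with averaged differentials. -/
def AverageCriterion (n : ℕ) : Prop :=
  ∀ (ρ : R2 n → ℝ), IsDensity ρ → ∀ (C : Type) [TopologicalSpace C] [CompactSpace C]
    (f g : C(C, SympCt n)) (A : Set C), (∀ c ∈ A, f c = one) →
    (f.HomotopicRel g A ↔ ∃ H : C × unitInterval × R2 n → R2 n, IsDeformation f g A H ∧
      AtSmallScales fun r => ∀ c t x, NoReversal (avg ρ r (fun z => H (c, t, z)) x))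

/-- The criterion with almost affine maps. -/
def AffineCriterion (n : ℕ) : Prop :=
  ∃ η₀ : ℝ, 0 < η₀ ∧ ∀ η : ℝ, 0 < η → η ≤ η₀ → ∀ (C : Type) [TopologicalSpace C]
    [CompactSpace C] (f g : C(C, SympCt n)) (A : Set C), (∀ c ∈ A, f c = one) →
    (f.HomotopicRel g A ↔ ∃ H : C × unitInterval × R2 n → R2 n, IsDeformation f g A H ∧
      AtSmallScales fun r => ∀ c t x, AlmostAffine η r (fun z => H (c, t, z)) x)

/-- The criterion for path connectedness. -/
def PathCriterion (n : ℕ) : Prop :=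
  ∃ η₀ : ℝ, 0 < η₀ ∧ ∀ η : ℝ, 0 < η → η ≤ η₀ → (PathConnectedSpace (SympCt n) ↔
    ∀ φ : SympCt n, ∃ H : unitInterval × R2 n → R2 n, Continuous H ∧
      (∃ K, IsCompact K ∧ ∀ t x, x ∉ K → H (t, x) = x) ∧ (∀ x, H (0, x) = φ.toEquiv x) ∧
      (∀ x, H (1, x) = x) ∧ AtSmallScales fun r => ∀ t x, AlmostAffine η r (fun z => H (t, z)) x)

theorem avg_eq {n : ℕ} {ρ : R2 n → ℝ} (hρ : Pool.Agent.W5h49.EC.Moll ρ) {r : ℝ} (hr : 0 < r)
    {h : R2 n → R2 n} (hh : Continuous h) (x : R2 n) :
    avg ρ r h x = Pool.Agent.Run7.h60.Pa.AV ρ r h x := by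
  funext v
  exact (Pool.Agent.Run7.h60.Pa.AV_scale hρ hr hh x v).symm

theorem moll_of {n : ℕ} {ρ : R2 n → ℝ} (h : IsDensity ρ) : Pool.Agent.W5h49.EC.Moll ρ :=
  ⟨h.1, h.2.1, h.2.2.1, h.2.2.2⟩

theorem slice {n : ℕ} {C : Type} [TopologicalSpace C] {H : C × unitInterval × R2 n → R2 n}
    (hH : Continuous H) (c : C) (t : unitInterval) : Continuous fun z => H (c, t, z) :=
  hH.comp (continuous_const.prodMk (continuous_const.prodMk continuous_id))

theorem averageCriterion (n : ℕ) : AverageCriterion n := by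
  intro ρ hρ' C _ _ f g A hA
  have hρ := moll_of hρ'
  constructor
  · intro h
    obtain ⟨Φ, h1, h2, h3, h4, h5⟩ := Pool.Agent.Run7.h60.Pa.path_of_hom hA h
    refine ⟨fun q => (Φ (q.2.1, q.1)).toEquiv q.2.2, ⟨h1, h2, h3, h4, h5⟩, fun δ hδ => ?_⟩
    obtain ⟨δ', hδ', h6⟩ := Pool.Agent.Run7.h60.Pa.stage1 hρ _ Φ
    have hr : 0 < min (δ / 2) δ' := lt_min (by positivity) hδ'
    refine ⟨min (δ / 2) δ', hr, (min_le_left _ _).trans_lt (by linarith), fun c t x => ?_⟩
    have h7 := h6 _ hr.le (min_le_right _ _) (t, c) x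
    rw [← Pool.Agent.Run7.h60.Pa.AV_symp hρ hr, ← avg_eq hρ hr (Φ (t, c)).smooth.continuous] at h7
    exact h7
  · rintro ⟨H, ⟨h1, ⟨K, hK, h2⟩, h3, h4, h5⟩, h6⟩
    refine Pool.Agent.W5h49.EC.rel_mono (Pool.Agent.Run7.h60.Pa.main hρ C f g H h1 hK h2 h3 h4
      fun δ hδ => ?_) fun c hc => h5 c hc
    obtain ⟨r, hr, hrδ, h7⟩ := h6 δ hδ
    refine ⟨r, hr, hrδ, fun c t x => ?_⟩
    have h8 := h7 c t x
    rw [avg_eq hρ hr (slice h1 c t)] at h8
    exact h8

theorem equiv_of {n : ℕ} {L : R2 n → R2 n} (h : IsConf L) :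
    ∃ e : R2 n ≃L[ℝ] R2 n, ∀ v, e v = L v := by
  obtain ⟨hL, l, hl, hω⟩ := h
  let l₁ : R2 n →ₗ[ℝ] R2 n := { toFun := L, map_add' := hL.1, map_smul' := hL.2 }
  have hinj : Function.Injective l₁ := by
    rw [← LinearMap.ker_eq_bot, LinearMap.ker_eq_bot']
    intro u hu
    by_contra hne
    have h1 := hω u (Pool.Agent.W5h49.EC.J u)
    have hu' : L u = 0 := hu
    rw [hu', Pool.Agent.W5h49.EC.omJ] at h1
    have h2 := Pool.Agent.W5h49.EC.nsqPos hne
    have h3 : omega (0 : R2 n) (L (Pool.Agent.W5h49.EC.J u)) = 0 := by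
      unfold omega
      simp
    rw [h3] at h1
    have := mul_pos hl h2
    linarith
  exact ⟨(LinearEquiv.ofInjectiveEndo l₁ hinj).toContinuousLinearEquiv, fun v => rfl⟩

theorem affineCriterion (n : ℕ) : AffineCriterion n := by
  obtain ⟨η₀, hη₀, haff⟩ := Pool.Agent.Run7.h60.Pa.aff_NR n
  refine ⟨η₀, hη₀, fun η hη hηη C _ _ f g A hA => ⟨fun h => ?_, ?_⟩⟩
  · obtain ⟨Φ, h1, h2, h3, h4, h5⟩ := Pool.Agent.Run7.h60.Pa.path_of_hom hA h
    refine ⟨fun q => (Φ (q.2.1, q.1)).toEquiv q.2.2, ⟨h1, h2, h3, h4, h5⟩, fun δ hδ => ?_⟩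
    obtain ⟨δ', hδ', h6⟩ := Pool.Agent.Run7.h60.Pa.aff_small Φ hη
    have hr : 0 < min (δ / 2) δ' := lt_min (by positivity) hδ'
    refine ⟨min (δ / 2) δ', hr, (min_le_left _ _).trans_lt (by linarith), fun c t x => ?_⟩
    obtain ⟨L, hL, h7⟩ := h6 _ hr.le (min_le_right _ _) (t, c) x
    refine ⟨L, ⟨⟨map_add L, fun a u => map_smul L a u⟩, 1, one_pos, fun u v => ?_⟩, h7⟩
    rw [one_mul]
    exact hL u v
  · rintro ⟨H, ⟨h1, ⟨K, hK, h2⟩, h3, h4, h5⟩, h6⟩
    refine Pool.Agent.W5h49.EC.rel_mono (Pool.Agent.Run7.h60.Pa.main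
      (Pool.Agent.Run7.h60.Pa.kp_moll n) C f g H h1 hK h2 h3 h4 fun δ hδ => ?_)
      fun c hc => h5 c hc
    obtain ⟨r, hr, hrδ, h7⟩ := h6 δ hδ
    refine ⟨r, hr, hrδ, fun c t x => ?_⟩
    obtain ⟨L, hL, h8⟩ := h7 c t x
    obtain ⟨e, he⟩ := equiv_of hL
    obtain ⟨-, l, hl, hω⟩ := hL
    refine haff r hr _ (slice h1 c t) x e l hl (fun u v => by rw [he, he]; exact hω u v)
      fun y hy => ?_
    obtain ⟨z, hz, h9⟩ := h8 y hy
    have h10 : H (c, t, x + y) - H (c, t, x) = e (y + z) := by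
      have h11 : H (c, t, x + y) = H (c, t, x) + L (y + z) := h9
      rw [h11, he]
      abel
    show ‖e.symm (H (c, t, x + y) - H (c, t, x)) - y‖ ≤ _
    rw [h10, e.symm_apply_apply, add_sub_cancel_left]
    exact hz.trans (mul_le_mul_of_nonneg_right hηη hr.le)

theorem pathCriterion (n : ℕ) : PathCriterion n := by
  obtain ⟨η₀, hη₀, h⟩ := affineCriterion n
  refine ⟨η₀, hη₀, fun η hη hηη => ⟨fun hp φ => ?_, fun hH => ?_⟩⟩
  · obtain ⟨γ⟩ := hp.joined φ one
    have h1 : (ContinuousMap.const Unit φ).HomotopicRel (ContinuousMap.const Unit one) ∅ :=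
      ⟨{ toFun := fun q => γ q.1
         continuous_toFun := γ.continuous.comp continuous_fst
         map_zero_left := fun _ => γ.source
         map_one_left := fun _ => γ.target
         prop' := fun _ _ hc => absurd hc (Set.notMem_empty _) }⟩
    obtain ⟨H, ⟨h2, ⟨K, hK, h3⟩, h4, h5, -⟩, h6⟩ :=
      (h η hη hηη Unit _ _ ∅ fun c hc => absurd hc (Set.notMem_empty c)).1 h1
    refine ⟨fun q => H ((), q.1, q.2), h2.comp (continuous_const.prodMk
      (continuous_fst.prodMk continuous_snd)), ⟨K, hK, fun t x hx => h3 () t x hx⟩,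
      fun x => h4 () x, fun x => h5 () x, fun δ hδ => ?_⟩
    obtain ⟨r, hr, hrδ, h7⟩ := h6 δ hδ
    exact ⟨r, hr, hrδ, fun t x => h7 () t x⟩
  · have hj : ∀ φ : SympCt n, Joined φ one := by
      intro φ
      obtain ⟨H, h2, ⟨K, hK, h3⟩, h4, h5, h6⟩ := hH φ
      have h1 : (ContinuousMap.const Unit φ).HomotopicRel (ContinuousMap.const Unit one) ∅ := by
        refine (h η hη hηη Unit _ _ ∅ fun c hc => absurd hc (Set.notMem_empty c)).2
          ⟨fun q => H q.2, ⟨h2.comp continuous_snd, ⟨K, hK, fun _ t x hx => h3 t x hx⟩,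
            fun _ x => h4 x, fun _ x => h5 x, fun c hc => absurd hc (Set.notMem_empty c)⟩,
            fun δ hδ => ?_⟩
        obtain ⟨r, hr, hrδ, h7⟩ := h6 δ hδ
        exact ⟨r, hr, hrδ, fun _ t x => h7 t x⟩
      obtain ⟨Φ⟩ := h1
      exact ⟨{ toFun := fun t => Φ (t, ())
               continuous_toFun := Φ.continuous.comp (continuous_id.prodMk continuous_const)
               source' := Φ.apply_zero ()
               target' := Φ.apply_one () }⟩
    exact { nonempty := ⟨one⟩
            joined := fun φ ψ => (hj φ).trans (hj ψ).symm }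

/-- **Homotopies in `Symp_ct(ℝ²ⁿ)` and paths of continuous maps.** -/
theorem result (n : ℕ) : AverageCriterion n ∧ AffineCriterion n ∧ PathCriterion n :=
  ⟨averageCriterion n, affineCriterion n, pathCriterion n⟩

end Pool.Agent.Results.MP_ec5dc5_gt.AlmostAffinePaths
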