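import Pool.Agent.Run7.h233.EC.Far

/-!
# Differentials averaged along a measure without atoms, and homotopies

`G = Symp_ct(ℝ²ⁿ)` with the direct limit topology (`SympCt n` of `Pool.Agent.W71.EC.Defs`). Let `μ`
be a probability measure on `ℝ²ⁿ` with bounded support, and `A_r(x) = ∫ Dφ(x + r z) dμ(z)` the
averages of the differentials of `φ ∈ G`.

* If `μ` has no atoms, and for all members of a compact family in `G` the averages `A_r(x)`, `r > 0`,
  never reverse `ω`, then the family is null homotopic. (A family whose averages over all segments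
  `[x, x + r u]` parallel to one fixed vector `u` never reverse `ω` is null homotopic.)
* For all `μ` (also with atoms, e.g. `A_r(x) = (Dφ(x - r u) + Dφ(x + r u)) / 2`): two families
  whose averages do not reverse `ω` at the scales up to `R(p)`, and for which the segments between
  the averages at the scale `R(p)` do not reverse `ω` either, are homotopic.

The earlier result `SmallMeanOscillation` has this for the averages over cubes, that is for one
measure `μ`; here `μ` may be singular, and no symmetry is assumed.

Proof. The maps `φ_r(x) = ∫ (φ(x + r z) - r z) dμ(z)` are smooth (also in `r`), are the identity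
outside a compact set, and have the differentials `A_r`. As these do not reverse `ω`, the forms
`(1 - s) ω + s φ_r^* ω` are nondegenerate and Moser's argument (for families, relative, from the
starting library `Pool.Agent.W5h49.EC`) corrects the family `φ_r` to a family of symplectomorphisms.
If `μ` has no atoms then the measure of a ball tends to zero with its radius, uniformly, so that
`A_r` tends to the identity for `r → ∞`, uniformly in `x` and for compact families.
-/

set_option autoImplicit false

open Pool.Agent.W71.EC MeasureTheory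

namespace Pool.Agent.Results.MP_ec5dc5_gt.AveragesAlongMeasures

/-- The average of the differential of `φ` at the points `x + r z`, with respect to the measure `μ`
of the variable `z`, as a function of the vector `v`. -/
noncomputable def avg {n : ℕ} (μ : Measure (R2 n)) (φ : SympCt n) (r : ℝ) (x v : R2 n) : R2 n :=
  ∫ z, fderiv ℝ φ.toEquiv (x + r • z) v ∂μ

/-- The map `A` does not reverse `ω` in any direction `v`: there are no `v ≠ 0` and `c ≥ 0` with
`ω(A v, A w) = - c ω(v, w)` for all `w`. -/
def NoReversal {n : ℕ} (A : R2 n → R2 n) : Prop :=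
  ¬ ∃ v : R2 n, v ≠ 0 ∧ ∃ c : ℝ, 0 ≤ c ∧ ∀ w : R2 n, omega (A v) (A w) = -c * omega v w

/-- Measures without atoms: a family whose averaged differentials do not reverse `ω` is null
homotopic, relative to the parameters where it is the identity. -/
def NullFamilies (n : ℕ) : Prop :=
  ∀ μ : Measure (R2 n), IsProbabilityMeasure μ → (∃ S : ℝ, ∀ᵐ z ∂μ, ‖z‖ ≤ S) →
    (∀ z : R2 n, μ {z} = 0) →
    ∀ (C : Type) [TopologicalSpace C] [CompactSpace C] (f : C(C, SympCt n)),
      (∀ (p : C) (r : ℝ), 0 < r → ∀ x, NoReversal (avg μ (f p) r x)) →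
      f.HomotopicRel (ContinuousMap.const C one) {p | f p = one}

/-- The case of the averages over the segments `[x, x + r u]`, for a fixed vector `u ≠ 0`. -/
def Segments (n : ℕ) : Prop :=
  ∀ u : R2 n, u ≠ 0 → ∀ (C : Type) [TopologicalSpace C] [CompactSpace C] (f : C(C, SympCt n)),
    (∀ (p : C) (r : ℝ), 0 < r → ∀ x, NoReversal (fun v =>
      ∫ s in (0 : ℝ)..1, fderiv ℝ (f p).toEquiv (x + (r * s) • u) v)) →
    f.HomotopicRel (ContinuousMap.const C one) {p | f p = one}

/-- All measures with bounded support: two families whose averaged differentials do not reverse `ω`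
at the scales up to `R p`, nor do the segments between the averages at the scale `R p`. -/
def TwoFamilies (n : ℕ) : Prop :=
  ∀ μ : Measure (R2 n), IsProbabilityMeasure μ → (∃ S : ℝ, ∀ᵐ z ∂μ, ‖z‖ ≤ S) →
    ∀ (C : Type) [TopologicalSpace C] [CompactSpace C] (f g : C(C, SympCt n)) (R : C(C, ℝ)),
      (∀ p, 0 ≤ R p) → (∀ p, R p = 0 → f p = g p) →
      (∀ (p : C) (r : ℝ), 0 < r → r ≤ R p → ∀ x, NoReversal (avg μ (f p) r x)) →
      (∀ (p : C) (r : ℝ), 0 < r → r ≤ R p → ∀ x, NoReversal (avg μ (g p) r x)) →
      (∀ (p : C) (t : ℝ), 0 ≤ t → t ≤ 1 → 0 < R p → ∀ x, NoReversal (fun v =>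
        (1 - t) • avg μ (f p) (R p) x v + t • avg μ (g p) (R p) x v)) →
      f.HomotopicRel g {p | R p = 0 ∨ (f p = one ∧ g p = one)}

theorem bs {n : ℕ} {μ : Measure (R2 n)} (hp : IsProbabilityMeasure μ)
    (h : ∃ S : ℝ, ∀ᵐ z ∂μ, ‖z‖ ≤ S) : ∃ S : ℝ, Pool.Agent.Run7.h233.EC.BS μ S := by
  obtain ⟨S, hS⟩ := h
  refine ⟨max S 0, hp, le_max_right _ _, ?_⟩
  filter_upwards [hS] with z hz
  exact hz.trans (le_max_left _ _)

theorem nullFamilies (n : ℕ) : NullFamilies n := by
  intro μ hp hS hna C _ _ f h
  obtain ⟨S, hS⟩ := bs hp hS
  exact Pool.Agent.Run7.h233.EC.null_family hS hna C f h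

theorem segments (n : ℕ) : Segments n := by
  intro u hu C _ _ f h
  set e : ℝ → R2 n := fun s => s • u with he
  have hem : Measurable e := (measurable_id.smul_const u)
  set μ : Measure (R2 n) := (volume.restrict (Set.Ioc (0 : ℝ) 1)).map e with hμ
  have hp0 : IsProbabilityMeasure (volume.restrict (Set.Ioc (0 : ℝ) 1)) := ⟨by simp⟩
  have hp : IsProbabilityMeasure μ := Measure.isProbabilityMeasure_map hem.aemeasurable
  have hnorm : MeasurableSet {z : R2 n | ‖z‖ ≤ ‖u‖} := measurableSet_le measurable_norm
    measurable_const
  refine nullFamilies n μ hp ⟨‖u‖, ?_⟩ (fun z => ?_) C f ?_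
  · rw [hμ, ae_map_iff hem.aemeasurable hnorm]
    refine (ae_restrict_iff' measurableSet_Ioc).2 (Filter.Eventually.of_forall fun s hs => ?_)
    show ‖s • u‖ ≤ ‖u‖
    rw [norm_smul, Real.norm_of_nonneg hs.1.le]
    exact mul_le_of_le_one_left (norm_nonneg _) hs.2
  · rw [hμ, Measure.map_apply hem (measurableSet_singleton z)]
    have h1 : (e ⁻¹' {z}).Subsingleton := by
      intro s hs t ht
      have h2 : s • u = t • u := (show s • u = z from hs).trans (show t • u = z from ht).symm
      exact smul_left_injective ℝ hu h2
    exact h1.measure_zero _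
  · intro p r hr x
    have h1 := h p r hr x
    have h2 : avg μ (f p) r x = fun v =>
        ∫ s in (0 : ℝ)..1, fderiv ℝ (f p).toEquiv (x + (r * s) • u) v := by
      funext v
      have hc : Continuous (fun z : R2 n => fderiv ℝ (f p).toEquiv (x + r • z) v) :=
        (((f p).smooth.continuous_fderiv (by simp)).comp (by fun_prop)).clm_apply
          continuous_const
      unfold avg
      rw [hμ, integral_map hem.aemeasurable hc.aestronglyMeasurable,
        intervalIntegral.integral_of_le zero_le_one]
      refine integral_congr_ae (Filter.Eventually.of_forall fun s => ?_)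
      simp only [he, smul_smul]
    rw [h2]
    exact h1

theorem twoFamilies (n : ℕ) : TwoFamilies n := by
  intro μ hp hS C _ _ f g R hR hR0 hf hg hfg
  obtain ⟨S, hS⟩ := bs hp hS
  exact Pool.Agent.Run7.h233.EC.two_families hS C f g R hR hR0 hf hg hfg

/-- **Averages along measures and homotopies.** -/
theorem result (n : ℕ) : NullFamilies n ∧ Segments n ∧ TwoFamilies n :=
  ⟨nullFamilies n, segments n, twoFamilies n⟩

end Pool.Agent.Results.MP_ec5dc5_gt.AveragesAlongMeasures
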