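import Pool.Agent.Run7.h60.RotMore
import Pool.Agent.Run7.h233.EC.Far

/-!
# Symplectomorphisms which commute with the rotations of one coordinate plane

`G = Symp_ct(ℝ²ⁿ)` with the direct limit topology (`SympCt n` of `Pool.Agent.W71.EC.Defs`),
`z_j = (x_j, y_j)`.

* An element of `G` commutes with the rotations of the plane of `z_j` if and only if it preserves
  `|z_j|`.
* The subgroup of these elements is contractible. More generally, let `L` be a set of linear
  symplectic maps which commute with the rotations of the plane of `z_j`; then the group of the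
  elements of `G` which commute with these rotations and with all maps in `L` is contractible.
* Every compact family in `G` of maps which preserve the function `|z_j| ∘ ψ`, where `ψ` is a
  symplectomorphism of `ℝ²ⁿ`, is null homotopic, relative to the parameters where it is the
  identity.
* So is every compact family `f` for which there is such a family `g` so that
  `(1 - t) Df_p(x) + t Dg_p(x)` never reverses `ω`.

There is no bound on the differentials, the supports or the displacements.

Proof. For `s ≥ 0` the map `A_s (z_j, w) = (√(1 + s / |z_j|²) z_j, w)` is a symplectomorphism of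
`{z_j ≠ 0}` onto `{|z_j|² > s}`, and this set is preserved by `φ`. The maps `A_s⁻¹ φ A_s` extend
smoothly to `ℝ²ⁿ`, because they commute with the rotations (they are the maps induced by `φ` on the
symplectic cuts of `ℝ²ⁿ`), also for `s → 0`: they have the form
`(b(|z_j|² + s, w) z_j, h(|z_j|² + s, w))`, and `b(q², w)`, `h(q², w)` are smooth and even in `q`
(Whitney's theorem on even functions, with parameters). For large `s` they are the identity. The
last point follows by Moser's argument (starting library `Pool.Agent.W5h49.EC`).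
-/

set_option autoImplicit false

open scoped ContDiff
open Pool.Agent.W71.EC MeasureTheory

namespace Pool.Agent.Results.MP_ec5dc5_gt.PlaneRotations

/-- The rotation by the angle `θ` in the plane of `z_j = (x_j, y_j)`. -/
noncomputable def rot {n : ℕ} (j : Fin n) (θ : ℝ) (p : R2 n) : R2 n :=
  (Function.update p.1 j (Real.cos θ * p.1 j - Real.sin θ * p.2 j),
    Function.update p.2 j (Real.sin θ * p.1 j + Real.cos θ * p.2 j))

/-- `|z_j|²`. -/
def zsq {n : ℕ} (j : Fin n) (p : R2 n) : ℝ := p.1 j ^ 2 + p.2 j ^ 2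

/-- The differential of `φ` at `x` in direction `v`. -/
noncomputable def dv {n : ℕ} (φ : R2 n → R2 n) (x v : R2 n) : R2 n := fderiv ℝ φ x v

/-- `φ` is smooth. -/
def Smooth {n : ℕ} (φ : R2 n → R2 n) : Prop := ContDiff ℝ ∞ φ

/-- `ψ` is a symplectomorphism of `ℝ²ⁿ` (with any support). -/
def IsSymp {n : ℕ} (ψ : R2 n ≃ R2 n) : Prop :=
  Smooth ψ ∧ Smooth ψ.symm ∧ ∀ p u v, omega (dv ψ p u) (dv ψ p v) = omega u v

/-- `l` is linear. -/
def IsLin {n : ℕ} (l : R2 n → R2 n) : Prop :=
  (∀ u v, l (u + v) = l u + l v) ∧ ∀ (a : ℝ) u, l (a • u) = a • l u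

/-- `l` is a linear symplectic map. -/
def IsLinSymp {n : ℕ} (l : R2 n → R2 n) : Prop :=
  IsLin l ∧ ∀ u v, omega (l u) (l v) = omega u v

/-- The maps `f` and `g` commute. -/
def Comm {n : ℕ} (f g : R2 n → R2 n) : Prop := ∀ p, f (g p) = g (f p)

/-- The elements of `G` which commute with the rotations of the plane of `z_j` and with the maps in
`L`, a subspace of `G`. -/
def centraliser {n : ℕ} (j : Fin n) (L : Set (R2 n → R2 n)) : Set (SympCt n) :=
  {φ | (∀ θ, Comm φ.toEquiv (rot j θ)) ∧ ∀ l ∈ L, Comm φ.toEquiv l}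

/-- The map `A` does not reverse `ω` in any direction `v`: there are no `v ≠ 0` and `c ≥ 0` with
`ω(A v, A w) = - c ω(v, w)` for all `w`. -/
def NoReversal {n : ℕ} (A : R2 n → R2 n) : Prop :=
  ¬ ∃ v : R2 n, v ≠ 0 ∧ ∃ c : ℝ, 0 ≤ c ∧ ∀ w : R2 n, omega (A v) (A w) = -c * omega v w

/-- The point `(1 - t) a + t b`. -/
def mix {n : ℕ} (t : ℝ) (a b : R2 n) : R2 n := (1 - t) • a + t • b

/-- Commuting with the rotations and preserving `|z_j|` are the same. -/
def Equivalence (n : ℕ) : Prop :=
  ∀ (j : Fin n) (φ : SympCt n), (∀ θ, Comm φ.toEquiv (rot j θ)) ↔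
    ∀ p, zsq j (φ.toEquiv p) = zsq j p

/-- The centraliser in `G` of the rotations of the plane of `z_j` and of any set of linear
symplectic maps which commute with these rotations is contractible. -/
def Centralisers (n : ℕ) : Prop :=
  ∀ (j : Fin n) (L : Set (R2 n → R2 n)), (∀ l ∈ L, IsLinSymp l ∧ ∀ θ, Comm l (rot j θ)) →
    ContractibleSpace (centraliser j L)

/-- Compact families of maps which preserve the function `|z_j| ∘ ψ` are null homotopic, relative to
the parameters where they are the identity. -/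
def Families (n : ℕ) : Prop :=
  ∀ (j : Fin n) (ψ : R2 n ≃ R2 n), IsSymp ψ →
    ∀ (C : Type) [TopologicalSpace C] [CompactSpace C] (f : C(C, SympCt n)),
      (∀ c p, zsq j (ψ ((f c).toEquiv p)) = zsq j (ψ p)) →
      f.HomotopicRel (ContinuousMap.const C one) {c | f c = one}

/-- Compact families near such families. -/
def NearFamilies (n : ℕ) : Prop :=
  ∀ (j : Fin n) (ψ : R2 n ≃ R2 n), IsSymp ψ →
    ∀ (C : Type) [TopologicalSpace C] [CompactSpace C] (f g : C(C, SympCt n)),
      (∀ c p, zsq j (ψ ((g c).toEquiv p)) = zsq j (ψ p)) →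
      (∀ (c : C) (t : ℝ), 0 ≤ t → t ≤ 1 → ∀ x, NoReversal fun v =>
        mix t (dv (f c).toEquiv x v) (dv (g c).toEquiv x v)) →
      f.HomotopicRel (ContinuousMap.const C one) {c | f c = one ∧ g c = one}

theorem rot_eq {n : ℕ} (j : Fin n) (θ : ℝ) (p : R2 n) :
    rot j θ p = Pool.Agent.Run7.h60.Rot.ro j (Real.cos θ) (Real.sin θ) p := by
  refine Pool.Agent.Run7.h60.Rot.ext2 (fun i => ?_) fun i => ?_
  · rw [Pool.Agent.Run7.h60.Rot.ro1]
    show Function.update p.1 j _ i = _
    rw [Function.update_apply]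
  · rw [Pool.Agent.Run7.h60.Rot.ro2]
    show Function.update p.2 j _ i = _
    rw [Function.update_apply]

theorem equivalence (n : ℕ) : Equivalence n := by
  intro j φ
  constructor
  · intro h
    refine Pool.Agent.Run7.h60.Rot.pres_of_comm (j := j) fun θ p => ?_
    have := h θ p
    rwa [rot_eq, rot_eq] at this
  · intro h θ p
    rw [rot_eq, rot_eq]
    exact Pool.Agent.Run7.h60.Rot.Pres.ro_angle (j := j) h θ p

theorem good_of {n : ℕ} {j : Fin n} {l : R2 n → R2 n} (h : IsLinSymp l)
    (hc : ∀ θ, Comm l (rot j θ)) :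
    ∃ l' : R2 n →L[ℝ] R2 n, (∀ p, l' p = l p) ∧ Pool.Agent.Run7.h60.Rot.Good j l' := by
  let l₁ : R2 n →ₗ[ℝ] R2 n := { toFun := l, map_add' := h.1.1, map_smul' := h.1.2 }
  refine ⟨LinearMap.toContinuousLinearMap l₁, fun _ => rfl, ?_⟩
  refine ⟨h.2, fun c s hcs p => ?_⟩
  obtain ⟨θ, rfl, rfl⟩ := Pool.Agent.Run7.h60.Rot.exists_angle hcs
  rw [← rot_eq, ← rot_eq]
  exact hc θ p

theorem centralisers (n : ℕ) : Centralisers n := by
  intro j L hL
  let L' : Set (R2 n →L[ℝ] R2 n) :=
    {l' | Pool.Agent.Run7.h60.Rot.Good j l' ∧ (fun p => l' p) ∈ L}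
  have h1 := Pool.Agent.Run7.h60.Rot.contractible_L j L' fun l hl => hl.1
  have h2 : (fun φ : SympCt n => φ ∈ centraliser j L) = fun φ =>
      Pool.Agent.Run7.h60.Rot.Pres j φ ∧ ∀ l ∈ L', ∀ p, φ.toEquiv (l p) = l (φ.toEquiv p) := by
    funext φ
    refine propext ⟨fun h => ⟨(equivalence n j φ).1 h.1, fun l hl p => h.2 _ hl.2 p⟩,
      fun h => ⟨(equivalence n j φ).2 h.1, fun l hl p => ?_⟩⟩
    obtain ⟨l', hl', hg⟩ := good_of (hL l hl).1 (hL l hl).2
    have hfun : (fun p => l' p) = l := funext hl'
    have h3 := h.2 l' ⟨hg, hfun ▸ hl⟩ p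
    rwa [hl', hl'] at h3
  show ContractibleSpace (Subtype fun φ : SympCt n => φ ∈ centraliser j L)
  rw [h2]
  exact h1

theorem families (n : ℕ) : Families n := by
  intro j ψ hψ C _ _ f hf
  exact Pool.Agent.Run7.h60.Rot.null_conj (j := j) hψ.1 hψ.2.1 hψ.2.2 f hf

theorem nearFamilies (n : ℕ) : NearFamilies n := by
  intro j ψ hψ C _ _ f g hg hfg
  have hp : IsProbabilityMeasure (Measure.dirac (0 : R2 n)) := Measure.dirac.isProbabilityMeasure
  have hS : Pool.Agent.Run7.h233.EC.BS (Measure.dirac (0 : R2 n)) 0 := by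
    refine ⟨hp, le_rfl, ?_⟩
    rw [ae_dirac_iff (measurableSet_le measurable_norm measurable_const)]
    simp
  have hA : ∀ (φ : SympCt n) (r : ℝ) (x : R2 n),
      Pool.Agent.Run7.h233.EC.AM (Measure.dirac (0 : R2 n)) φ r x =
        fun v => fderiv ℝ φ.toEquiv x v := by
    intro φ r x
    funext v
    unfold Pool.Agent.Run7.h233.EC.AM
    rw [integral_dirac]
    simp [Pool.Agent.W5h49.EC.D]
  have hNR : ∀ (φ : SympCt n) (r : ℝ) (x : R2 n),
      Pool.Agent.W5h49.EC.NR (Pool.Agent.Run7.h233.EC.AM (Measure.dirac (0 : R2 n)) φ r x) := by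
    intro φ r x
    have h := Pool.Agent.Run7.h233.EC.NR_zero hS φ x
    rw [hA] at h ⊢
    exact h
  have h1 := Pool.Agent.Run7.h233.EC.two_families hS C f g (ContinuousMap.const C 1)
    (fun _ => zero_le_one) (fun p h => absurd h one_ne_zero) (fun p r _ _ x => hNR _ _ _)
    (fun p r _ _ x => hNR _ _ _) (fun p t h0 h1 _ x => by
      have h2 := hfg p t h0 h1 x
      rw [hA, hA]
      exact h2)
  have h2 := families n j ψ hψ C g hg
  exact (Pool.Agent.W5h49.EC.rel_mono h1 fun p hp => Or.inr hp).trans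
    (Pool.Agent.W5h49.EC.rel_mono h2 fun p hp => hp.2)

/-- **Symplectomorphisms which commute with the rotations of a coordinate plane.** -/
theorem result (n : ℕ) : Equivalence n ∧ Centralisers n ∧ Families n ∧ NearFamilies n :=
  ⟨equivalence n, centralisers n, families n, nearFamilies n⟩

end Pool.Agent.Results.MP_ec5dc5_gt.PlaneRotations
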