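import Pool.Agent.Run7.h233.EC.Split

/-!
# A splitting criterion for homotopies of compactly supported symplectomorphisms

`G = Symp_ct(ℝ²ⁿ)` with the direct limit topology (`SympCt n` of `Pool.Agent.W71.EC.Defs`). Let
`ℝ²ⁿ = P ⊕ Q` with symplectically orthogonal subspaces `P` and `Q`, depending continuously on the
parameter, and let `f`, `g` be compact families in `G`. If the diagonal blocks `a : P → P` and
`e : Q → Q` of the differentials of `f ∘ g⁻¹` have the property that `a + m` and `e + m`, `m ≥ 0`,
never reverse `ω`, then `f` and `g` are homotopic relative to the set where they agree. There is no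
condition on the other two blocks. (If `P` is a plane then the condition on `a` is that `a` has no
eigenvalue in `(-∞, 0]`.)

Proof. Let `X` be a differential of `θ = f ∘ g⁻¹`, and `π` the projection onto `P`. The maps
`id + t π (θ - id)`, `t ∈ [0, 1]`, have the differentials `A = 1 + t π (X - 1)`. If `A` reverses
`ω` in a direction `v`, then `A* A v = -c v` with the symplectic adjoint `A* = 1 + t (X⁻¹ - 1) π`;
eliminating the component in `Q` gives `(π X + m) (π X⁻¹ + m) ξ = -d ξ` for `ξ = π A v`, with
`m = (1 + c) (1 - t) / t` and `d ≥ 0`, which is excluded by the condition on `a`. The second part of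
the path, from `(1 - π) + π θ` to `θ`, is of the same form for `θ⁻¹` and `Q`, after composition
with `θ`. So the path consists of maps whose differentials never reverse `ω`, and Moser's argument
(for families, relative, from the starting library `Pool.Agent.W5h49.EC`) corrects it to a path of
symplectomorphisms.
-/

set_option autoImplicit false

open scoped ContDiff Topology

namespace Pool.Agent.Results.MP_ec5dc5_gt.SplittingCriterion

open Pool.Agent.W71.EC

/-- Let `P` be the image of the projection `π`. The operators `v ↦ π (A v) + m v`, `m ≥ 0`, of `P`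
never reverse the form: there are no `m ≥ 0`, `c ≥ 0` and `v ≠ 0` in `P` such that
`ω(π (A v) + m v, π (A w) + m w) = - c ω(v, w)` for all `w` in `P`. -/
def BlockNoReversal {n : ℕ} (π : R2 n → R2 n) (A : R2 n → R2 n) : Prop :=
  ¬ ∃ (m c : ℝ) (v : R2 n), 0 ≤ m ∧ 0 ≤ c ∧ π v = v ∧ v ≠ 0 ∧ ∀ w : R2 n, π w = w →
    omega (π (A v) + m • v) (π (A w) + m • w) = -c * omega v w

/-- the differential of `φ ∘ ψ⁻¹` at `y` -/
noncomputable def relDiff {n : ℕ} (φ ψ : SympCt n) (y : R2 n) : R2 n →L[ℝ] R2 n :=
  fderiv ℝ (fun z => φ.toEquiv (ψ.toEquiv.symm z)) y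

/-- The projections `π p` onto the first summands of splittings `ℝ²ⁿ = P ⊕ Q` into subspaces
orthogonal for `ω`, depending continuously on `p`. -/
structure IsSplitting {n : ℕ} {C : Type} [TopologicalSpace C] (π : C → R2 n →L[ℝ] R2 n) :
    Prop where
  continuous : Continuous π
  proj : ∀ p v, π p (π p v) = π p v
  orth : ∀ p u v, omega (π p u) v = omega u (π p v)

/-- The diagonal blocks of the differentials of `φ ∘ ψ⁻¹` never reverse the form, with all shifts
`m ≥ 0`. -/
def BlocksNoReversal {n : ℕ} (P : R2 n →L[ℝ] R2 n) (φ ψ : SympCt n) : Prop :=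
  ∀ y, BlockNoReversal P (relDiff φ ψ y) ∧ BlockNoReversal (fun v => v - P v) (relDiff φ ψ y)

/-- The splitting criterion. -/
def SplittingCriterion (n : ℕ) : Prop :=
  ∀ (C : Type) [TopologicalSpace C] [CompactSpace C] (f g : C(C, SympCt n))
    (π : C → R2 n →L[ℝ] R2 n), IsSplitting π → (∀ p, BlocksNoReversal (π p) (f p) (g p)) →
    f.HomotopicRel g {p | f p = g p}

/-- **The splitting criterion.** -/
theorem result (n : ℕ) : SplittingCriterion n := by
  intro C _ _ f g π hπ h
  refine (Pool.Agent.Run7.h233.EC.homotopic_of_split C f g π hπ.continuous hπ.proj hπ.orth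
    ?_ ?_).symm
  · intro p x m hm c hc v hv hv0
    by_contra hcon
    push Not at hcon
    refine (h p ((g p).toEquiv x)).1 ⟨m, c, v, hm, hc, hv, hv0, fun w hw => ?_⟩
    unfold relDiff
    rw [← Pool.Agent.Run7.h233.EC.rel_eq]
    exact hcon w hw
  · intro p x m hm c hc v hv hv0
    by_contra hcon
    push Not at hcon
    refine (h p ((g p).toEquiv x)).2 ⟨m, c, v, hm, hc, hv, hv0, fun w hw => ?_⟩
    unfold relDiff
    rw [← Pool.Agent.Run7.h233.EC.rel_eq]
    exact hcon w hw

end Pool.Agent.Results.MP_ec5dc5_gt.SplittingCriterion
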